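import Pool.Agent.Helper35.SHR.Sheet

/-!
# SHR, row LZ2: the start
-/

set_option autoImplicit false

namespace SHR
open SHQ
open scoped ENNReal

namespace S59

/-- the zero parameters -/
noncomputable abbrev o0 : Om := ⟨fun _ => 0, 0, 0⟩

theorem lz2_val {n : ℕ} (T : Tr) : ∀ s : St n,
    (T = .nil ∧ s.2.val = 0 ∧ ValC o0 s T (ev o0) = 1) ∨ ValC o0 s T (ev o0) = 0 := by
  induction T with
  | nil =>
    intro s
    show (_ ∧ _ ∧ (0 : ℝ≥0∞) ^ s.2.val = 1) ∨ (0 : ℝ≥0∞) ^ s.2.val = 0
    by_cases h : s.2.val = 0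
    · left
      exact ⟨rfl, h, by rw [h, pow_zero]⟩
    · right
      exact zero_pow h
  | one a T ih =>
    intro s
    right
    show wt o0 s a * ValC o0 (nx s a) T (ev o0) = 0
    by_cases ha : a = s.1
    · by_cases hs : s.2.val < n
      · have h1 : (nx s a).2.val = s.2.val + 1 := by
          unfold nx
          rw [if_pos ha, dif_pos hs]
        rcases ih (nx s a) with ⟨_, h2, _⟩ | h2
        · omega
        · rw [h2, mul_zero]
      · have : wt o0 s a = 0 := by
          unfold wt
          rw [if_pos ha, if_neg hs]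
        rw [this, zero_mul]
    · have : wt o0 s a = 0 := by
        unfold wt
        rw [if_neg ha]
      rw [this, zero_mul]
  | two c T T' _ _ =>
    intro s
    right
    show kp o0 s * (ValC o0 (c + 1, 0) T (ev o0) + ValC o0 (c + 2, 0) T' (ev o0)) = 0
    have : kp o0 s = 0 := by
      unfold kp
      rw [mul_zero]
    rw [this, zero_mul]

end S59

open S59

/-- (LZ2) -/
theorem st_LZ2 (h : ST_GR) : ST_LZ2 := by
  intro n z hz
  obtain ⟨-, -, -, -, -, -, -, h⟩ := h z
  have h2 : z / 2 + z / 2 = z := ENNReal.add_halves z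
  have h3 : z / 2 ≤ z := by
    calc z / 2 ≤ z / 2 + z / 2 := le_self_add
      _ = z := h2
  refine ⟨z / 2, ?_, ?_⟩
  · intro h0
    rw [h0, add_zero] at h2
    exact hz h2.symm
  intro T
  cases T with
  | nil =>
    show z / 2 * 0 ≤ _
    rw [mul_zero]
    exact zero_le
  | one a T =>
    show z / 2 * ValC o0 (a, 0) T (ev o0) ≤ _
    rcases lz2_val (n := n) T (a, 0) with ⟨h4, -, h5⟩ | h5
    · rw [h5, mul_one, h4]
      exact h3.trans (h a .nil).1
    · rw [h5, mul_zero]
      exact zero_le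
  | two c T T' =>
    show z / 2 * (ValC o0 (c + 1, 0) T (ev o0) + ValC o0 (c + 2, 0) T' (ev o0)) ≤ _
    rcases lz2_val (n := n) T (c + 1, 0) with ⟨h4, -, h5⟩ | h5
    · rcases lz2_val (n := n) T' (c + 2, 0) with ⟨h6, -, h7⟩ | h7
      · rw [h5, h7, mul_add, mul_one, h2, h4]
        exact (h c T').2.1
      · rw [h5, h7, add_zero, mul_one, h4]
        exact h3.trans (h c T').2.1
    · rcases lz2_val (n := n) T' (c + 2, 0) with ⟨h6, -, h7⟩ | h7
      · rw [h5, h7, zero_add, mul_one, h6]
        exact h3.trans (h c T).2.2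
      · rw [h5, h7, add_zero, mul_zero]
        exact zero_le

end SHR
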